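import Mathlib

/-!
Factoring a determinant along a partition respected by every supporting permutation.
-/

set_option autoImplicit false
set_option linter.unusedSectionVars false
set_option linter.unusedVariables false
set_option linter.unusedSimpArgs false

namespace Pool.Agent.U273.FlowerDet

open Finset

open scoped Classical

variable {V : Type*} [Fintype V]

/-- Determinant of a principal submatrix depends only on the index set. -/
lemma det_subset_congr (A : Matrix V V ℝ) {p q : V → Prop} (h : ∀ v, p v ↔ q v)
    [i1 : Fintype {v // p v}] [i2 : DecidableEq {v // p v}] [i3 : Fintype {v // q v}]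
    [i4 : DecidableEq {v // q v}] :
    (A.submatrix (Subtype.val : {v // p v} → V) (Subtype.val : {v // p v} → V)).det =
      (A.submatrix (Subtype.val : {v // q v} → V) (Subtype.val : {v // q v} → V)).det := by
  have : p = q := funext fun v => propext (h v)
  subst this
  have h1 : i1 = i3 := Subsingleton.elim _ _
  have h2 : i2 = i4 := Subsingleton.elim _ _
  subst h1; subst h2
  rfl

/-- If every permutation supporting a nonzero term respects the pairwise disjoint sets `R i`, the
determinant factors. -/
lemma det_factor {ι : Type*} [Fintype ι] (A : Matrix V V ℝ) (R : ι → Set V)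
    (hR : ∀ i j, i ≠ j → Disjoint (R i) (R j))
    (h : ∀ σ : Equiv.Perm V, (∀ v, A (σ v) v ≠ 0) → ∀ i v, v ∈ R i ↔ σ v ∈ R i) :
    A.det = (A.submatrix (Subtype.val : {v // ∀ i, v ∉ R i} → V)
        (Subtype.val : {v // ∀ i, v ∉ R i} → V)).det *
      ∏ i, (A.submatrix (Subtype.val : {v // v ∈ R i} → V)
        (Subtype.val : {v // v ∈ R i} → V)).det := by
  -- the block of a vertex
  set β : V → Option ι := fun v => if h : ∃ i, v ∈ R i then some (Classical.choose h) else none
    with hβ
  have hβsome : ∀ v i, β v = some i ↔ v ∈ R i := by
    intro v i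
    constructor
    · intro h1
      by_cases hex : ∃ i, v ∈ R i
      · simp only [hβ, dif_pos hex, Option.some.injEq] at h1
        rw [← h1]; exact Classical.choose_spec hex
      · simp only [hβ, dif_neg hex] at h1
        exact absurd h1 (by simp)
    · intro hv
      have hex : ∃ i, v ∈ R i := ⟨i, hv⟩
      simp only [hβ, dif_pos hex, Option.some.injEq]
      by_contra hne
      exact (Set.disjoint_left.1 (hR _ _ hne)) (Classical.choose_spec hex) hv
  have hβnone : ∀ v, β v = none ↔ ∀ i, v ∉ R i := by
    intro v
    constructor
    · intro h1 i hi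
      rw [(hβsome v i).2 hi] at h1
      exact absurd h1 (by simp)
    · intro h1
      have hex : ¬ ∃ i, v ∈ R i := fun ⟨i, hi⟩ => h1 i hi
      simp only [hβ, dif_neg hex]
  have hσβ : ∀ σ : Equiv.Perm V, (∀ v, A (σ v) v ≠ 0) → ∀ v, β (σ v) = β v := by
    intro σ hσ v
    cases hv : β v with
    | none =>
      rw [hβnone] at hv ⊢
      intro i hi
      exact hv i ((h σ hσ i v).2 hi)
    | some i =>
      rw [hβsome] at hv ⊢
      exact (h σ hσ i v).1 hv
  -- the block matrix
  set A' : Matrix V V ℝ := fun i j => if β i = β j then A i j else 0 with hA'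
  have hdet : A.det = A'.det := by
    rw [Matrix.det_apply, Matrix.det_apply]
    refine Finset.sum_congr rfl ?_
    intro σ _
    congr 1
    by_cases hσ : ∀ v, A (σ v) v ≠ 0
    · refine Finset.prod_congr rfl ?_
      intro v _
      simp only [hA', if_pos (hσβ σ hσ v)]
    · push Not at hσ
      obtain ⟨v, hv⟩ := hσ
      have e1 : ∏ i, A (σ i) i = 0 := Finset.prod_eq_zero (mem_univ v) hv
      have e2 : ∏ i, A' (σ i) i = 0 := by
        apply Finset.prod_eq_zero (mem_univ v)
        simp only [hA', hv, ite_self]
      rw [e1, e2]
  -- a linear order on the blocks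
  let f : Option ι ≃ Fin (Fintype.card (Option ι)) := Fintype.equivFin _
  have hbt : A'.BlockTriangular (fun v => f (β v)) := by
    intro i j hij
    have hne : β i ≠ β j := by
      intro h1
      simp only [h1, lt_self_iff_false] at hij
    simp only [hA', if_neg hne]
  rw [hdet, hbt.det_fintype]
  have hre : ∏ k : Fin (Fintype.card (Option ι)), (A'.toSquareBlock (fun v => f (β v)) k).det =
      ∏ o : Option ι, (A'.toSquareBlock (fun v => f (β v)) (f o)).det := by
    rw [← Equiv.prod_comp f]
  have hblock : ∀ o : Option ι, (A'.toSquareBlock (fun v => f (β v)) (f o)).det =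
      (A.submatrix (Subtype.val : {v // β v = o} → V) (Subtype.val : {v // β v = o} → V)).det := by
    intro o
    have h1 : (A'.toSquareBlock (fun v => f (β v)) (f o)) =
        A.submatrix (Subtype.val : {v // f (β v) = f o} → V)
          (Subtype.val : {v // f (β v) = f o} → V) := by
      ext ⟨i, hi⟩ ⟨j, hj⟩
      have hi' := f.injective hi
      have hj' := f.injective hj
      have h3 : A' i j = A i j := by simp only [hA', hi', hj', if_true]
      exact h3
    rw [h1]
    exact det_subset_congr A (p := fun v => f (β v) = f o) (q := fun v => β v = o) (fun v => f.injective.eq_iff)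
  have h2 : ∏ o : Option ι, (A'.toSquareBlock (fun v => f (β v)) (f o)).det =
      ∏ o : Option ι, (A.submatrix (Subtype.val : {v // β v = o} → V)
        (Subtype.val : {v // β v = o} → V)).det := Finset.prod_congr rfl (fun o _ => hblock o)
  rw [hre, h2, Fintype.prod_option]
  refine congrArg₂ (· * ·) (det_subset_congr A (p := fun v => β v = none) (q := fun v => ∀ i, v ∉ R i) hβnone) ?_
  exact Finset.prod_congr rfl (fun i _ => det_subset_congr A (p := fun v => β v = some i) (q := fun v => v ∈ R i) (fun v => hβsome v i))

end Pool.Agent.U273.FlowerDet
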