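import Mathlib

/-!
Matchings of a finite graph as involutions, alternating paths from an exposed vertex.
-/

set_option autoImplicit false
set_option linter.unusedSectionVars false
set_option linter.unusedVariables false

namespace Pool.Agent.U273.FlowerDet

open Finset

open scoped Classical

variable {V : Type*} [Fintype V]

/-- A matching, as an involution moving each vertex along an edge or fixing it. -/
structure IsInv (G : SimpleGraph V) (m : V → V) : Prop where
  inv : ∀ v, m (m v) = v
  adj : ∀ v, m v ≠ v → G.Adj v (m v)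

/-- The exposed vertices. -/
noncomputable def fixed (m : V → V) : Finset V := univ.filter (fun v => m v = v)

lemma mem_fixed {m : V → V} {v : V} : v ∈ fixed m ↔ m v = v := by simp [fixed]

/-- A maximum matching. -/
def IsMax (G : SimpleGraph V) (m : V → V) : Prop :=
  IsInv G m ∧ ∀ m', IsInv G m' → (fixed m).card ≤ (fixed m').card

/-- The vertices missed by some maximum matching. -/
def inD (G : SimpleGraph V) (x : V) : Prop := ∃ m, IsMax G m ∧ m x = x

/-- An even alternating path from `r` to `x` with vertex set `S` avoiding `F`. -/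
inductive EvP (G : SimpleGraph V) (m : V → V) (F : Finset V) (r : V) : V → Finset V → Prop
  | nil : EvP G m F r r {r}
  | cons {x y : V} {S : Finset V} : EvP G m F r x S → G.Adj x y → y ∉ S → y ∉ F → m y ≠ y →
      EvP G m F r (m y) (insert y (insert (m y) S))

/-- `e` is an edge of the matching `m`. -/
def eIn (m : V → V) (e : Sym2 V) : Prop := ∃ v, m v ≠ v ∧ e = s(v, m v)

variable {G : SimpleGraph V}

lemma IsMax.inj {m : V → V} (hm : IsInv G m) {u v : V} (h : m u = m v) : u = v := by
  have := congrArg m h
  rwa [hm.inv, hm.inv] at this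

lemma EvP.root_mem {m : V → V} {F : Finset V} {r x : V} {S : Finset V} (h : EvP G m F r x S) :
    r ∈ S := by
  induction h with
  | nil => simp
  | cons _ _ _ _ _ ih => simp [ih]

lemma EvP.end_mem {m : V → V} {F : Finset V} {r x : V} {S : Finset V} (h : EvP G m F r x S) :
    x ∈ S := by
  cases h with
  | nil => simp
  | cons _ _ _ _ _ => simp

lemma EvP.closed {m : V → V} {F : Finset V} {r x : V} {S : Finset V} (hm : IsInv G m)
    (hr : m r = r) (h : EvP G m F r x S) : ∀ u ∈ S, m u ∈ S := by
  induction h with
  | nil => simp [hr]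
  | @cons x y S _ _ _ _ _ ih =>
    intro u hu
    simp only [mem_insert] at hu ⊢
    rcases hu with rfl | rfl | hu
    · right; left; rfl
    · left; exact hm.inv _
    · right; right; exact ih u hu

lemma EvP.moved {m : V → V} {F : Finset V} {r x : V} {S : Finset V} (hm : IsInv G m)
    (hr : m r = r) (h : EvP G m F r x S) : ∀ u ∈ S, u ≠ r → m u ≠ u := by
  induction h with
  | nil => simp
  | @cons x y S _ _ _ _ hy ih =>
    intro u hu hur
    simp only [mem_insert] at hu
    rcases hu with rfl | rfl | hu
    · exact hy
    · rw [hm.inv]; exact fun h => hy h.symm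
    · exact ih u hu hur

lemma EvP.avoid {m : V → V} {F : Finset V} {r x : V} {S : Finset V} (hm : IsInv G m)
    (hF : ∀ u ∈ F, m u ∈ F) (h : EvP G m F r x S) : ∀ u ∈ S, u ∈ F → u = r := by
  induction h with
  | nil => simp
  | @cons x y S _ _ _ hyF hy ih =>
    intro u hu huF
    simp only [mem_insert] at hu
    rcases hu with rfl | rfl | hu
    · exact absurd huF hyF
    · have := hF _ huF
      rw [hm.inv] at this
      exact absurd this hyF
    · exact ih u hu huF

/-- Transfer an alternating path to another matching that agrees with the first on it. -/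
lemma EvP.transfer {a b : V → V} {F : Finset V} {r x : V} {S : Finset V}
    (h : EvP G a F r x S) (hab : ∀ u ∈ S, b u = a u) : EvP G b F r x S := by
  induction h with
  | nil => exact EvP.nil
  | @cons x y S _ hxy hyS hyF hy ih =>
    have h1 := ih (fun u hu => hab u (by simp [hu]))
    have h2 : b y = a y := hab y (by simp)
    have h3 := EvP.cons h1 hxy hyS hyF (by rw [h2]; exact hy)
    rwa [h2] at h3

/-- Prepending a pair of vertices. -/
lemma EvP.prepend {a b : V → V} {F : Finset V} {r x : V} {S : Finset V} {w y : V}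
    (h : EvP G a F r x S) (har : a r = r) (ha : IsInv G a)
    (hwy : G.Adj w y) (hby : b y = r) (hyr : y ≠ r) (hyF : y ∉ F) (hyw : y ≠ w)
    (hyS : y ∉ S) (hwS : w ∉ S) (hab : ∀ u ∈ S, u ≠ r → b u = a u) :
    EvP G b F w x (insert y (insert w S)) := by
  induction h with
  | nil =>
    have h1 : EvP G b F w (b y) (insert y (insert (b y) {w})) :=
      EvP.cons EvP.nil hwy (by simpa using hyw) hyF (by rw [hby]; exact hyr.symm)
    rw [hby] at h1
    have h2 : (insert y (insert r {w}) : Finset V) = insert y (insert w {r}) := by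
      ext u; simp only [mem_insert, mem_singleton]; tauto
    rwa [h2] at h1
  | @cons x z S hS hxz hzS hzF hz ih =>
    simp only [mem_insert, not_or] at hyS hwS
    have h1 := ih hyS.2.2 hwS.2.2 (fun u hu hur => hab u (by simp [hu]) hur)
    have hrS : r ∈ S := hS.root_mem
    have hzr : z ≠ r := fun h => hzS (h ▸ hrS)
    have h2 : b z = a z := hab z (by simp) hzr
    have h3 := EvP.cons (m := b) h1 hxz
      (by simp only [mem_insert, not_or]; exact ⟨fun h => hyS.1 h.symm, fun h => hwS.1 h.symm, hzS⟩)
      hzF (by rw [h2]; exact hz)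
    rw [h2] at h3
    have h4 : (insert z (insert (a z) (insert y (insert w S))) : Finset V) =
        insert y (insert w (insert z (insert (a z) S))) := by
      ext u; simp only [mem_insert]; tauto
    rwa [h4] at h3

lemma eIn_iff {m : V → V} (hm : IsInv G m) {u v : V} : eIn m s(u, v) ↔ (m u = v ∧ u ≠ v) := by
  constructor
  · rintro ⟨w, hw, h⟩
    rw [Sym2.eq_iff] at h
    rcases h with ⟨rfl, rfl⟩ | ⟨rfl, rfl⟩
    · exact ⟨rfl, hw.symm⟩
    · exact ⟨hm.inv _, hw⟩
  · rintro ⟨rfl, h⟩
    exact ⟨u, h.symm, rfl⟩

/-- Switching a matching along an even alternating path from an exposed vertex. -/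
lemma EvP.switch {m : V → V} {F : Finset V} {r x : V} {S : Finset V} (hm : IsInv G m)
    (hr : m r = r) (h : EvP G m F r x S) :
    ∃ (m' : V → V) (p : G.Walk r x), IsInv G m' ∧ (∀ v, v ∉ S → m' v = m v) ∧
      (∀ v ∈ S, m' v ∈ S) ∧ m' x = x ∧ (∀ v ∈ S, v ≠ x → m' v ≠ v) ∧
      p.IsPath ∧ Even p.length ∧ (∀ v, v ∈ p.support ↔ v ∈ S) ∧
      p.edges.IsChain (fun e f => (eIn m' e ↔ ¬ eIn m' f)) ∧
      (∀ F' : Finset V, (∀ u ∈ S, u ∈ F' → u = x) → EvP G m' F' x r S) ∧
      (∀ e ∈ p.edges.getLast?, ¬ eIn m' e) := by
  induction h with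
  | nil =>
    refine ⟨m, SimpleGraph.Walk.nil, hm, fun _ _ => rfl, by simp [hr], hr, by simp, by simp, by simp,
      by simp, by simp, fun F' _ => EvP.nil, by simp⟩
  | @cons x y S hS hxy hyS hyF hy ih =>
    obtain ⟨m', p, h1, h2, h3, h4, h5, h6, h7, h8, h9, h10, h11⟩ := ih
    have hclosed := hS.closed hm hr
    have hmyS : m y ∉ S := fun h => hyS (by have := hclosed _ h; rwa [hm.inv] at this)
    have hxS := hS.end_mem
    have hm'y : m' y = m y := h2 y hyS
    have hm'my : m' (m y) = y := by rw [h2 _ hmyS, hm.inv]
    have hxy' : x ≠ y := fun h => hyS (h ▸ hxS)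
    have hxmy : x ≠ m y := fun h => hmyS (h ▸ hxS)
    set m'' : V → V := fun v => if v = x then y else if v = y then x else if v = m y then m y else m' v
      with hm''
    have e1 : m'' x = y := by simp [hm'']
    have e2 : m'' y = x := by simp [hm'', hxy'.symm]
    have e3 : m'' (m y) = m y := by simp [hm'', hxmy.symm, hy]
    have e4 : ∀ v, v ≠ x → v ≠ y → v ≠ m y → m'' v = m' v := by
      intro v a b c; simp [hm'', a, b, c]
    have e5 : ∀ v ∈ S, v ≠ x → m'' v = m' v := fun v hv hvx =>
      e4 v hvx (fun h => hyS (h ▸ hv)) (fun h => hmyS (h ▸ hv))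
    have hInv : IsInv G m'' := by
      constructor
      · intro v
        by_cases hvx : v = x
        · rw [hvx, e1, e2]
        by_cases hvy : v = y
        · rw [hvy, e2, e1]
        by_cases hvm : v = m y
        · rw [hvm, e3, e3]
        rw [e4 v hvx hvy hvm, e4, h1.inv]
        · intro h
          apply hvx
          rw [← h1.inv v, h, h4]
        · intro h
          apply hvm
          rw [← h1.inv v, h, hm'y]
        · intro h
          apply hvy
          rw [← h1.inv v, h, hm'my]
      · intro v hv
        by_cases hvx : v = x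
        · rw [hvx, e1]; exact hxy
        by_cases hvy : v = y
        · rw [hvy, e2]; exact hxy.symm
        by_cases hvm : v = m y
        · rw [hvm, e3] at hv; exact absurd rfl hv
        rw [e4 v hvx hvy hvm] at hv ⊢
        exact h1.adj v hv
    have hadj : G.Adj y (m y) := hm.adj y hy
    -- edges of `p` lie in `m''` iff they lie in `m'`
    have hpe : ∀ e ∈ p.edges, (eIn m'' e ↔ eIn m' e) := by
      intro e he
      induction e using Sym2.ind with
      | _ u v =>
        have hu : u ∈ S := (h8 u).1 (p.fst_mem_support_of_mem_edges he)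
        have hv : v ∈ S := (h8 v).1 (p.snd_mem_support_of_mem_edges he)
        rw [eIn_iff hInv, eIn_iff h1]
        by_cases hux : u = x
        · subst hux
          rw [e1, h4]
          constructor
          · rintro ⟨rfl, _⟩; exact absurd hv hyS
          · rintro ⟨rfl, h⟩; exact absurd rfl h
        · rw [e5 u hu hux]
    have hnx : ¬ eIn m'' s(y, m y) := by
      rw [eIn_iff hInv, e2]
      rintro ⟨h, _⟩; exact hxmy h
    have hxyin : eIn m'' s(x, y) := by
      rw [eIn_iff hInv, e1]; exact ⟨rfl, hxy'⟩
    refine ⟨m'', (p.concat hxy).concat hadj, hInv, ?_, ?_, e3, ?_, ?_, ?_, ?_, ?_, ?_, ?_⟩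
    · intro v hv
      simp only [mem_insert, not_or] at hv
      rw [e4 v (fun h => hv.2.2 (h ▸ hxS)) hv.1 hv.2.1, h2 v hv.2.2]
    · intro v hv
      simp only [mem_insert] at hv ⊢
      rcases hv with rfl | rfl | hv
      · rw [e2]; right; right; exact hxS
      · rw [e3]; right; left; rfl
      · by_cases hvx : v = x
        · rw [hvx, e1]; left; rfl
        · rw [e5 v hv hvx]; right; right; exact h3 v hv
    · intro v hv hvm
      simp only [mem_insert] at hv
      rcases hv with rfl | rfl | hv
      · rw [e2]; exact hxy'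
      · exact absurd rfl hvm
      · by_cases hvx : v = x
        · rw [hvx, e1]; exact hxy'.symm
        · rw [e5 v hv hvx]; exact h5 v hv hvx
    · rw [SimpleGraph.Walk.concat_isPath_iff, SimpleGraph.Walk.concat_isPath_iff]
      refine ⟨⟨h6, ?_⟩, ?_⟩
      · rw [h8]; exact hyS
      · rw [SimpleGraph.Walk.support_concat]
        simp only [List.concat_eq_append, List.mem_append, List.mem_singleton, not_or]
        exact ⟨by rw [h8]; exact hmyS, hy⟩
    · rw [SimpleGraph.Walk.length_concat, SimpleGraph.Walk.length_concat]
      obtain ⟨k, hk⟩ := h7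
      exact ⟨k + 1, by omega⟩
    · intro v
      rw [SimpleGraph.Walk.support_concat, SimpleGraph.Walk.support_concat]
      simp only [List.concat_eq_append, List.mem_append, List.mem_singleton, mem_insert]
      rw [h8]; tauto
    · rw [SimpleGraph.Walk.edges_concat, SimpleGraph.Walk.edges_concat]
      simp only [List.concat_eq_append]
      rw [List.isChain_append, List.isChain_append]
      refine ⟨⟨?_, by simp, ?_⟩, by simp, ?_⟩
      · refine List.IsChain.imp_of_mem_imp (fun e f he hf => ?_) h9
        intro hef
        rw [hpe e he, hpe f hf]; exact hef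
      · intro e he f hf
        have he' : e ∈ p.edges := List.mem_of_getLast? he
        simp only [List.head?_cons, Option.mem_def, Option.some.injEq] at hf
        subst hf
        have h12 := h11 e he
        rw [← hpe e he'] at h12
        simp [h12, hxyin]
      · intro e he f hf
        simp only [List.getLast?_append, List.getLast?_singleton, List.head?_cons, Option.mem_def,
          Option.some.injEq, Option.some_or] at he hf
        subst he; subst hf
        simp [hnx, hxyin]
    · intro F' hF'
      have hF1 : ∀ u ∈ S, u ∈ F' → u = x := by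
        intro u hu huF
        have := hF' u (by simp [hu]) huF
        exact absurd (this ▸ hu) hmyS
      have hyF' : y ∉ F' := by
        intro h
        exact hy (hF' y (by simp) h).symm
      have hy2 : EvP G m' F' x r S := h10 F' hF1
      refine EvP.prepend hy2 h4 h1 hadj.symm e2 hxy'.symm hyF' hy.symm hyS hmyS ?_
      intro u hu hux
      exact e5 u hu hux
    · intro e he
      rw [SimpleGraph.Walk.edges_concat] at he
      simp only [List.concat_eq_append, List.getLast?_append, List.getLast?_singleton, Option.some_or,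
        Option.mem_def, Option.some.injEq] at he
      subst he
      exact hnx

/-- Number of exposed vertices after switching. -/
lemma card_fixed_switch {m m' : V → V} {F : Finset V} {r x : V} {S : Finset V} (hm : IsInv G m)
    (hr : m r = r) (h : EvP G m F r x S) (h2 : ∀ v, v ∉ S → m' v = m v)
    (h4 : m' x = x) (h5 : ∀ v ∈ S, v ≠ x → m' v ≠ v) : (fixed m').card = (fixed m).card := by
  have hmv := h.moved hm hr
  have hrS := h.root_mem
  have hxS := h.end_mem
  have h6 : fixed m' = insert x ((fixed m).erase r) := by
    ext v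
    simp only [mem_fixed, mem_insert, mem_erase]
    by_cases hv : v ∈ S
    · constructor
      · intro h7; left; by_contra h8; exact h5 v hv h8 h7
      · rintro (rfl | ⟨h7, h8⟩)
        · exact h4
        · exact absurd h8 (hmv v hv h7)
    · rw [h2 v hv]
      constructor
      · intro h7; right; exact ⟨fun h => hv (h ▸ hrS), h7⟩
      · rintro (rfl | ⟨h7, h8⟩)
        · exact absurd hxS hv
        · exact h8
  rw [h6, card_insert_of_notMem, card_erase_of_mem (mem_fixed.2 hr)]
  · have : 0 < (fixed m).card := card_pos.2 ⟨r, mem_fixed.2 hr⟩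
    omega
  · simp only [mem_erase, mem_fixed, not_and]
    intro hxr; exact hmv x hxS hxr

lemma IsMax.of_card {m m' : V → V} (hm : IsMax G m) (hm' : IsInv G m')
    (h : (fixed m').card ≤ (fixed m).card) : IsMax G m' :=
  ⟨hm', fun k hk => h.trans (hm.2 k hk)⟩

/-- Two exposed vertices of a maximum matching are not adjacent. -/
lemma IsMax.not_adj {m : V → V} (hm : IsMax G m) {x y : V} (hx : m x = x) (hy : m y = y)
    (hxy : G.Adj x y) : False := by
  have hne : x ≠ y := hxy.ne
  set k : V → V := fun v => if v = x then y else if v = y then x else m v with hk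
  have e1 : k x = y := by simp [hk]
  have e2 : k y = x := by simp [hk, hne.symm]
  have e3 : ∀ v, v ≠ x → v ≠ y → k v = m v := by intro v a b; simp [hk, a, b]
  have hkI : IsInv G k := by
    constructor
    · intro v
      by_cases hvx : v = x
      · rw [hvx, e1, e2]
      by_cases hvy : v = y
      · rw [hvy, e2, e1]
      rw [e3 v hvx hvy, e3, hm.1.inv]
      · intro h; apply hvx; rw [← hm.1.inv v, h, hx]
      · intro h; apply hvy; rw [← hm.1.inv v, h, hy]
    · intro v hv
      by_cases hvx : v = x
      · rw [hvx, e1]; exact hxy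
      by_cases hvy : v = y
      · rw [hvy, e2]; exact hxy.symm
      rw [e3 v hvx hvy] at hv ⊢
      exact hm.1.adj v hv
  have h1 := hm.2 k hkI
  have h2 : fixed k ⊆ (fixed m).erase x := by
    intro v hv
    rw [mem_fixed] at hv
    rw [mem_erase, mem_fixed]
    have hvx : v ≠ x := by rintro rfl; rw [e1] at hv; exact hne hv.symm
    have hvy : v ≠ y := by rintro rfl; rw [e2] at hv; exact hne hv
    rw [e3 v hvx hvy] at hv
    exact ⟨hvx, hv⟩
  have h3 := card_le_card h2
  rw [card_erase_of_mem (mem_fixed.2 hx)] at h3
  have : 0 < (fixed m).card := card_pos.2 ⟨x, mem_fixed.2 hx⟩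
  omega

/-- A maximum matching has no augmenting path. -/
lemma EvP.augment {m : V → V} {F : Finset V} {r x y : V} {S : Finset V} (hm : IsMax G m)
    (hr : m r = r) (h : EvP G m F r x S) (hxy : G.Adj x y) (hy : y ∉ S) : m y ≠ y := by
  intro hmy
  obtain ⟨m', p, h1, h2, h3, h4, h5, -⟩ := h.switch hm.1 hr
  have hmax : IsMax G m' := hm.of_card h1 (card_fixed_switch hm.1 hr h h2 h4 h5).le
  exact hmax.not_adj h4 (by rw [h2 y hy, hmy]) hxy

/-- The end of an even alternating path from an exposed vertex is missed by a maximum matching. -/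
lemma EvP.end_inD {m : V → V} {F : Finset V} {r x : V} {S : Finset V} (hm : IsMax G m)
    (hr : m r = r) (h : EvP G m F r x S) : inD G x := by
  obtain ⟨m', p, h1, h2, h3, h4, h5, -⟩ := h.switch hm.1 hr
  exact ⟨m', hm.of_card h1 (card_fixed_switch hm.1 hr h h2 h4 h5).le, h4⟩

/-- The hybrid of two matchings along a set closed under both. -/
noncomputable def hyb (a b : V → V) (W : Set V) : V → V := fun v => if v ∈ W then b v else a v

lemma hyb_in {a b : V → V} {W : Set V} {v : V} (h : v ∈ W) : hyb a b W v = b v := by simp [hyb, h]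

lemma hyb_out {a b : V → V} {W : Set V} {v : V} (h : v ∉ W) : hyb a b W v = a v := by
  simp [hyb, h]

lemma hyb_inv {a b : V → V} {W : Set V} (ha : IsInv G a) (hb : IsInv G b)
    (hWa : ∀ u ∈ W, a u ∈ W) (hWb : ∀ u ∈ W, b u ∈ W) : IsInv G (hyb a b W) := by
  constructor
  · intro v
    by_cases hv : v ∈ W
    · rw [hyb_in hv, hyb_in (hWb v hv), hb.inv]
    · have : a v ∉ W := fun h => hv (by have := hWa _ h; rwa [ha.inv] at this)
      rw [hyb_out hv, hyb_out this, ha.inv]
  · intro v hv
    by_cases hvW : v ∈ W
    · rw [hyb_in hvW] at hv ⊢; exact hb.adj v hv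
    · rw [hyb_out hvW] at hv ⊢; exact ha.adj v hv

lemma hyb_max {a b : V → V} {W : Set V} (ha : IsMax G a) (hb : IsMax G b)
    (hWa : ∀ u ∈ W, a u ∈ W) (hWb : ∀ u ∈ W, b u ∈ W) : IsMax G (hyb a b W) := by
  have h1 := hyb_inv ha.1 hb.1 hWa hWb
  have h2 := hyb_inv hb.1 ha.1 hWb hWa
  refine ha.of_card h1 ?_
  have h3 : (fixed a).card = (fixed b).card := le_antisymm (ha.2 b hb.1) (hb.2 a ha.1)
  have h4 := hb.2 _ h2
  have h5 : ∀ c d : V → V, (fixed (hyb c d W)).card =
      ((fixed c).filter (fun v => v ∉ W)).card + ((fixed d).filter (fun v => v ∈ W)).card := by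
    intro c d
    rw [← card_filter_add_card_filter_not (s := fixed (hyb c d W)) (fun v => v ∉ W)]
    congr 1
    · congr 1
      ext v
      simp only [mem_filter, mem_fixed]
      constructor
      · rintro ⟨h, hv⟩; rw [hyb_out hv] at h; exact ⟨h, hv⟩
      · rintro ⟨h, hv⟩; rw [hyb_out hv]; exact ⟨h, hv⟩
    · congr 1
      ext v
      simp only [mem_filter, mem_fixed, not_not]
      constructor
      · rintro ⟨h, hv⟩; rw [hyb_in hv] at h; exact ⟨h, hv⟩
      · rintro ⟨h, hv⟩; rw [hyb_in hv]; exact ⟨h, hv⟩
  have h6 : ∀ c : V → V, (fixed c).card =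
      ((fixed c).filter (fun v => v ∉ W)).card + ((fixed c).filter (fun v => v ∈ W)).card := by
    intro c
    rw [← card_filter_add_card_filter_not (s := fixed c) (fun v => v ∉ W)]
    simp
  have h7 := h5 a b
  have h8 := h5 b a
  have h9 := h6 a
  have h10 := h6 b
  omega

end Pool.Agent.U273.FlowerDet
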