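import Pool.Agent.U273.FlowerDet.Core

/-!
Following a component of the union of two maximum matchings.
-/

set_option autoImplicit false
set_option linter.unusedSectionVars false
set_option linter.unusedVariables false
set_option linter.unusedSimpArgs false

namespace Pool.Agent.U273.FlowerDet

open Finset

open scoped Classical

variable {V : Type*} [Fintype V] {G : SimpleGraph V}

/-- The invariants of a partial traversal. -/
structure Trav (G : SimpleGraph V) (a b : V → V) (F : Finset V) (r : V) (W P : Set V) (S0 T : Finset V)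
    (z : V) : Prop where
  zT : z ∈ T
  TW : ∀ u ∈ T, u ∈ W
  ev : EvP G a F r z (S0 ∪ T)
  Ta : ∀ u ∈ T, a u ∈ T
  Tb : ∀ u ∈ T, u ≠ z → u ∉ P → b u ∈ T ∧ b u ≠ z ∧ b u ≠ u
  D : ∀ u ∈ T, inD G u ∨ (inD G (a u) ∧ (u ∈ P ∨ inD G (b u)))

lemma Trav.run {a b : V → V} {F : Finset V} {r : V} {W P : Set V} {S0 : Finset V}
    (ha : IsMax G a) (hb : IsInv G b) (har : a r = r) (hWb : ∀ u ∈ W, b u ∈ W)
    (hWa : ∀ u ∈ W, a u ∈ W)
    (hWF : ∀ u ∈ W, u ∉ F) (hS0 : ∀ u ∈ S0, u ∉ W) :
    ∀ (n : ℕ) (T : Finset V) (z : V), (univ \ T).card ≤ n → Trav G a b F r W P S0 T z →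
      ∃ T' z', T ⊆ T' ∧ Trav G a b F r W P S0 T' z' ∧ (b z' = z' ∨ b z' ∈ P) := by
  intro n
  induction n with
  | zero =>
    intro T z hn h
    refine ⟨T, z, Subset.rfl, h, ?_⟩
    have hT : T = univ := by
      have h1 : univ \ T = ∅ := card_eq_zero.1 (Nat.le_zero.1 hn)
      exact univ_subset_iff.1 (sdiff_eq_empty_iff_subset.1 h1)
    by_contra hc
    push Not at hc
    have h2 := h.Tb (b z) (by rw [hT]; exact mem_univ _) hc.1 hc.2
    rw [hb.inv] at h2
    exact h2.2.1 rfl
  | succ n ih =>
    intro T z hn h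
    by_cases hc : b z = z ∨ b z ∈ P
    · exact ⟨T, z, Subset.rfl, h, hc⟩
    push Not at hc
    obtain ⟨hc1, hc2⟩ := hc
    have hzW := h.TW z h.zT
    have hyT : b z ∉ T := by
      intro hbz
      have h2 := h.Tb (b z) hbz hc1 hc2
      rw [hb.inv] at h2
      exact h2.2.1 rfl
    have hyW : b z ∈ W := hWb z hzW
    have hyS : b z ∉ S0 ∪ T := by
      rw [mem_union, not_or]
      exact ⟨fun h => hS0 _ h hyW, hyT⟩
    have hadj : G.Adj z (b z) := hb.adj z hc1
    have hay : a (b z) ≠ b z := h.ev.augment ha har hadj hyS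
    have hev := EvP.cons h.ev hadj hyS (hWF _ hyW) hay
    have hayT : a (b z) ∉ T := fun h3 => hyT (by have := h.Ta _ h3; rwa [ha.1.inv] at this)
    have hset : insert (b z) (insert (a (b z)) (S0 ∪ T)) = S0 ∪ insert (b z) (insert (a (b z)) T) := by
      ext u; simp only [mem_insert, mem_union]; tauto
    rw [hset] at hev
    have hnew : Trav G a b F r W P S0 (insert (b z) (insert (a (b z)) T)) (a (b z)) := by
      refine ⟨by simp, ?_, hev, ?_, ?_, ?_⟩
      · intro u hu
        simp only [mem_insert] at hu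
        rcases hu with rfl | rfl | hu
        · exact hyW
        · exact hWa _ hyW
        · exact h.TW u hu
      · intro u hu
        simp only [mem_insert] at hu ⊢
        rcases hu with rfl | rfl | hu
        · right; left; rfl
        · left; exact ha.1.inv _
        · right; right; exact h.Ta u hu
      · intro u hu huz huP
        simp only [mem_insert] at hu ⊢
        rcases hu with rfl | rfl | hu
        · rw [hb.inv]
          refine ⟨Or.inr (Or.inr h.zT), ?_, hc1.symm⟩
          intro h3; exact hayT (h3 ▸ h.zT)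
        · exact absurd rfl huz
        · by_cases huz' : u = z
          · subst huz'
            exact ⟨Or.inl rfl, hay.symm, hc1⟩
          · have h3 := h.Tb u hu huz' huP
            refine ⟨Or.inr (Or.inr h3.1), ?_, h3.2.2⟩
            intro h4; exact hayT (h4 ▸ h3.1)
      · intro u hu
        simp only [mem_insert] at hu
        rcases hu with rfl | rfl | hu
        · right
          refine ⟨hev.end_inD ha har, Or.inr ?_⟩
          rw [hb.inv]
          exact h.ev.end_inD ha har
        · left; exact hev.end_inD ha har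
        · exact h.D u hu
    have hlt : (univ \ insert (b z) (insert (a (b z)) T)).card ≤ n := by
      have h5 : univ \ insert (b z) (insert (a (b z)) T) ⊆ (univ \ T).erase (b z) := by
        intro u hu
        simp only [mem_sdiff, mem_univ, true_and, mem_insert, not_or, mem_erase] at hu ⊢
        exact ⟨hu.1, hu.2.2⟩
      have h6 := card_le_card h5
      rw [card_erase_of_mem (by simp [hyT])] at h6
      have h7 : 0 < (univ \ T).card := card_pos.2 ⟨b z, by simp [hyT]⟩
      omega
    obtain ⟨T', z', h8, h9, h10⟩ := ih _ _ hlt hnew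
    refine ⟨T', z', ?_, h9, h10⟩
    intro u hu
    exact h8 (by simp [hu])

/-- Two adjacent vertices, each missed by some maximum matching, are joined by an even alternating
path. -/
lemma even_path_of_adj {d x : V} (hd : inD G d) (hx : inD G x) (hdx : G.Adj d x) :
    ∃ (a : V → V) (S : Finset V), IsMax G a ∧ a d = d ∧ EvP G a ∅ d x S := by
  obtain ⟨a, ha, had⟩ := hd
  obtain ⟨b, hb, hbx⟩ := hx
  have h0 : Trav G a b ∅ d Set.univ ∅ ∅ {d} d := by
    refine ⟨by simp, by simp, ?_, ?_, ?_, ?_⟩
    · rw [empty_union]; exact EvP.nil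
    · simp [had]
    · simp
    · intro u hu
      rw [mem_singleton] at hu
      subst hu
      exact Or.inl ⟨a, ha, had⟩
  obtain ⟨T, z, -, h1, h2⟩ := Trav.run ha hb.1 had (by simp) (by simp) (by simp) (by simp) _ _ _ le_rfl h0
  have h3 : b z = z := by simpa using h2
  have hTb : ∀ u ∈ T, b u ∈ T := by
    intro u hu
    by_cases huz : u = z
    · rw [huz, h3]; exact h1.zT
    · exact (h1.Tb u hu huz (by simp)).1
  have hev := h1.ev
  rw [empty_union] at hev
  by_cases hxT : x ∈ T
  · by_cases hxz : x = z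
    · rw [← hxz] at hev
      exact ⟨a, T, ha, had, hev⟩
    · exact absurd hbx (h1.Tb x hxT hxz (by simp)).2.2
  · exfalso
    have hdT : d ∈ T := hev.root_mem
    have h4 : IsMax G (hyb b a (T : Set V)) :=
      hyb_max hb ha (fun u hu => hTb u hu) (fun u hu => h1.Ta u hu)
    refine h4.not_adj (x := d) (y := x) ?_ ?_ hdx
    · rw [hyb_in (by exact_mod_cast hdT)]; exact had
    · rw [hyb_out (by exact_mod_cast hxT)]; exact hbx

/-- `d` and `x` adjacent, each missed by some maximum matching: they lie on an odd cycle. -/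
lemma odd_cycle_of_adj {d x : V} (hd : inD G d) (hx : inD G x) (hdx : G.Adj d x) :
    ∃ (c : G.Walk x x), c.IsCycle ∧ Odd c.length ∧ d ∈ c.support := by
  obtain ⟨a, S, ha, had, hS⟩ := even_path_of_adj hd hx hdx
  obtain ⟨m', p, h1, h2, h3, h4, h5, h6, h7, h8, -⟩ := hS.switch ha.1 had
  refine ⟨SimpleGraph.Walk.cons hdx.symm p, ?_, ?_, ?_⟩
  · rw [SimpleGraph.Walk.cons_isCycle_iff]
    refine ⟨h6, ?_⟩
    intro he
    rw [Sym2.eq_swap] at he
    have h9 := h6.length_eq_one_of_mem_edges he
    rw [h9] at h7
    exact absurd h7 (by decide)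
  · rw [SimpleGraph.Walk.length_cons]
    exact h7.add_one
  · simp

end Pool.Agent.U273.FlowerDet
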