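import Pool.Agent.U273.FlowerDet.Struct

/-!
Rotating a matching along an odd cycle.
-/

set_option autoImplicit false
set_option linter.unusedSectionVars false
set_option linter.unusedVariables false
set_option linter.unusedSimpArgs false

namespace Pool.Agent.U273.FlowerDet

open Finset

open scoped Classical

variable {V : Type*} [Fintype V] {G : SimpleGraph V}

lemma getVert_edge_mem {u v : V} (p : G.Walk u v) {i : ℕ} (hi : i < p.length) :
    s(p.getVert i, p.getVert (i + 1)) ∈ p.edges := by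
  rw [← SimpleGraph.Walk.adj_toSubgraph_iff_mem_edges]
  exact p.toSubgraph_adj_getVert hi

/-- The partner index. -/
def qix (i : ℕ) : ℕ := if i = 0 then 0 else if i % 2 = 1 then i + 1 else i - 1

lemma qix_qix (i : ℕ) : qix (qix i) = i := by
  unfold qix
  by_cases h0 : i = 0
  · simp [h0]
  · by_cases h1 : i % 2 = 1
    · have h2 : (i + 1) % 2 ≠ 1 := by omega
      simp [h0, h1, h2]
    · have h2 : (i - 1) % 2 = 1 := by omega
      have h3 : i - 1 ≠ 0 := by omega
      simp only [h0, if_false, h1, h3, h2, if_true]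
      omega

lemma qix_le {i t : ℕ} (h : i ≤ 2 * t) : qix i ≤ 2 * t := by
  unfold qix
  split_ifs <;> omega

lemma qix_ne {i : ℕ} (h : i ≠ 0) : qix i ≠ i := by
  unfold qix
  split_ifs <;> omega

lemma rotate_good {v0 : V} (c : G.Walk v0 v0) (hc : c.IsCycle) {t : ℕ} (hlen : c.length = 2 * t + 1)
    (m : V → V) (b v : V) (hm : Good G c.edges.toFinset c.support.toFinset m b)
    (hv : v ∈ c.support.toFinset) :
    ∃ m', Good G c.edges.toFinset c.support.toFinset m' v ∧
      ∀ u, u ∉ c.support.toFinset → m' u = m u := by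
  have hv' : v ∈ c.support := by simpa using hv
  set d : G.Walk v v := c.rotate v hv' with hd
  have hdc : d.IsCycle := (SimpleGraph.Walk.isCycle_rotate hv').2 hc
  have hdl : d.length = 2 * t + 1 := by rw [hd, SimpleGraph.Walk.length_rotate, hlen]
  have hde : ∀ e, e ∈ d.edges ↔ e ∈ c.edges := fun e => (c.rotate_edges v hv').perm.mem_iff
  have hds : ∀ u, u ∈ d.support ↔ u ∈ c.support := fun u =>
    SimpleGraph.Walk.mem_support_rotate_iff c v hv'
  set f : ℕ → V := d.getVert with hf
  have hinj : ∀ i j, i ≤ 2 * t → j ≤ 2 * t → f i = f j → i = j := by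
    intro i j hi hj hij
    exact hdc.getVert_injOn' (by rw [Set.mem_ofPred_eq]; omega) (by rw [Set.mem_ofPred_eq]; omega) hij
  have hf0 : f 0 = v := d.getVert_zero
  have hfn : f (2 * t + 1) = v := by rw [← hdl]; exact d.getVert_length
  set C := c.support.toFinset with hC
  set E := c.edges.toFinset with hE
  have hfC : ∀ i, f i ∈ C := by
    intro i
    rw [hC, List.mem_toFinset, ← hds]
    exact d.getVert_mem_support i
  have hCf : ∀ u ∈ C, ∃ i, i ≤ 2 * t ∧ f i = u := by
    intro u hu
    rw [hC, List.mem_toFinset, ← hds, SimpleGraph.Walk.mem_support_iff_exists_getVert] at hu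
    obtain ⟨n, hn, hnl⟩ := hu
    rw [hdl] at hnl
    by_cases h : n = 2 * t + 1
    · exact ⟨0, by omega, by rw [hf0, ← hn, h]; exact hfn.symm⟩
    · exact ⟨n, by omega, hn⟩
  have hfE : ∀ i, i ≤ 2 * t → s(f i, f (i + 1)) ∈ E := by
    intro i hi
    rw [hE, List.mem_toFinset, ← hde]
    exact getVert_edge_mem d (by omega)
  choose! idx hidx1 hidx2 using hCf
  have hidx : ∀ i, i ≤ 2 * t → idx (f i) = i := by
    intro i hi
    exact hinj _ _ (hidx1 _ (hfC i)) hi (hidx2 _ (hfC i))
  set m' : V → V := fun u => if u ∈ C then f (qix (idx u)) else m u with hm'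
  have e1 : ∀ i, i ≤ 2 * t → m' (f i) = f (qix i) := by
    intro i hi
    simp only [hm', if_pos (hfC i), hidx i hi]
  have e2 : ∀ u, u ∉ C → m' u = m u := by intro u hu; simp [hm', hu]
  have hfne : ∀ i, i ≤ 2 * t → i ≠ 0 → f (qix i) ≠ f i := by
    intro i hi h0 h
    exact qix_ne h0 (hinj _ _ (qix_le hi) hi h)
  have hqE : ∀ i, i ≤ 2 * t → i ≠ 0 → s(f i, f (qix i)) ∈ E := by
    intro i hi h0
    unfold qix
    rw [if_neg h0]
    split_ifs with h1
    · exact hfE i hi
    · have h2 := hfE (i - 1) (by omega)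
      have h3 : i - 1 + 1 = i := by omega
      rw [h3, Sym2.eq_swap] at h2
      exact h2
  have hEadj : ∀ x y, s(x, y) ∈ E → G.Adj x y := by
    intro x y h
    rw [hE, List.mem_toFinset] at h
    exact c.adj_of_mem_edges h
  have hInv : IsInv G m' := by
    constructor
    · intro u
      by_cases hu : u ∈ C
      · obtain ⟨i, hi, rfl⟩ : ∃ i, i ≤ 2 * t ∧ f i = u := ⟨idx u, hidx1 u hu, hidx2 u hu⟩
        rw [e1 i hi, e1 _ (qix_le hi), qix_qix]
      · have : m u ∉ C := fun h => hu (by have := hm.closed _ h; rwa [hm.max.1.inv] at this)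
        rw [e2 u hu, e2 _ this, hm.max.1.inv]
    · intro u hu
      by_cases huC : u ∈ C
      · obtain ⟨i, hi, rfl⟩ : ∃ i, i ≤ 2 * t ∧ f i = u := ⟨idx u, hidx1 u huC, hidx2 u huC⟩
        rw [e1 i hi] at hu ⊢
        have h0 : i ≠ 0 := by rintro rfl; exact hu (by simp [qix])
        exact hEadj _ _ (hqE i hi h0)
      · rw [e2 u huC] at hu ⊢
        exact hm.max.1.adj u hu
  have hfix : fixed m' = insert v ((fixed m).erase b) := by
    ext u
    simp only [mem_fixed, mem_insert, mem_erase]
    by_cases hu : u ∈ C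
    · obtain ⟨i, hi, rfl⟩ : ∃ i, i ≤ 2 * t ∧ f i = u := ⟨idx u, hidx1 u hu, hidx2 u hu⟩
      rw [e1 i hi]
      constructor
      · intro h
        left
        by_contra h1
        have h0 : i ≠ 0 := by rintro rfl; exact h1 hf0
        exact hfne i hi h0 h
      · rintro (h | ⟨h1, h2⟩)
        · have h0 : i = 0 := by
            apply hinj _ _ hi (by omega)
            rw [h, hf0]
          rw [h0]; simp [qix]
        · exact absurd h2 (hm.mC _ hu h1).1
    · rw [e2 u hu]
      constructor
      · intro h; right; exact ⟨fun h1 => hu (h1 ▸ hm.vC), h⟩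
      · rintro (h | ⟨h1, h2⟩)
        · exact absurd (h ▸ hv) hu
        · exact h2
  refine ⟨m', ⟨?_, hv, ?_, ?_⟩, e2⟩
  · refine hm.max.of_card hInv ?_
    rw [hfix]
    refine (card_insert_le _ _).trans ?_
    rw [card_erase_of_mem (mem_fixed.2 hm.mv)]
    have : 0 < (fixed m).card := card_pos.2 ⟨b, mem_fixed.2 hm.mv⟩
    omega
  · have := e1 0 (by omega)
    rw [hf0] at this
    rw [this]; simp [qix, hf0]
  · intro u hu huv
    obtain ⟨i, hi, rfl⟩ : ∃ i, i ≤ 2 * t ∧ f i = u := ⟨idx u, hidx1 u hu, hidx2 u hu⟩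
    have h0 : i ≠ 0 := by rintro rfl; exact huv hf0
    rw [e1 i hi]
    exact ⟨hfne i hi h0, hqE i hi h0, hfC _⟩

end Pool.Agent.U273.FlowerDet
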