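import Pool.Agent.U273.FlowerDet.Dir

/-!
The structure of the reach set of an odd cycle.
-/

set_option autoImplicit false
set_option linter.unusedSectionVars false
set_option linter.unusedVariables false
set_option linter.unusedSimpArgs false

namespace Pool.Agent.U273.FlowerDet

open Finset

open scoped Classical

variable {V : Type*} [Fintype V] {G : SimpleGraph V}

/-- `m` is a maximum matching, missing `v` and matching the other vertices of `C` along edges
of `E`. -/
structure Good (G : SimpleGraph V) (E : Finset (Sym2 V)) (C : Finset V) (m : V → V) (v : V) :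
    Prop where
  max : IsMax G m
  vC : v ∈ C
  mv : m v = v
  mC : ∀ u ∈ C, u ≠ v → m u ≠ u ∧ s(u, m u) ∈ E ∧ m u ∈ C

/-- The reach set, in terms of involutions. -/
def Rset (G : SimpleGraph V) (E : Finset (Sym2 V)) (C : Finset V) : Set V :=
  {x | x ∈ C ∨ ∃ m v z S, Good G E C m v ∧ EvP G m C v z S ∧ x ∈ S}

lemma Good.closed {E : Finset (Sym2 V)} {C : Finset V} {m : V → V} {v : V} (h : Good G E C m v) :
    ∀ u ∈ C, m u ∈ C := by
  intro u hu
  by_cases huv : u = v
  · rw [huv, h.mv]; exact h.vC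
  · exact (h.mC u hu huv).2.2

/-- First entry of an alternating path into a closed set. -/
lemma EvP.first_hit {a : V → V} {F : Finset V} {r z : V} {S : Finset V} {W : Set V}
    (ha : IsInv G a) (h : EvP G a F r z S) (hrW : r ∉ W) (hWa : ∀ u ∈ W, a u ∈ W)
    (ho : ∃ o ∈ S, o ∈ W) :
    ∃ x y S0, EvP G a F r x S0 ∧ (∀ u ∈ S0, u ∉ W) ∧ G.Adj x y ∧ y ∉ S0 ∧ y ∈ W := by
  induction h with
  | nil =>
    obtain ⟨o, hoS, hoW⟩ := ho
    rw [mem_singleton] at hoS
    subst hoS; exact absurd hoW hrW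
  | @cons x y S hS hxy hyS hyF hy ih =>
    by_cases hc : ∃ u ∈ S, u ∈ W
    · exact ih hc
    · push Not at hc
      refine ⟨x, y, S, hS, hc, hxy, hyS, ?_⟩
      obtain ⟨o, hoS, hoW⟩ := ho
      simp only [mem_insert] at hoS
      rcases hoS with rfl | rfl | hoS
      · exact hoW
      · have := hWa _ hoW
        rwa [ha.inv] at this
      · exact absurd hoW (hc o hoS)

/-- Position of a vertex on an alternating path. -/
lemma EvP.position {a : V → V} {F : Finset V} {r z : V} {S : Finset V}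
    (ha : IsInv G a) (har : a r = r) (h : EvP G a F r z S) {o : V} (hoS : o ∈ S) :
    (∃ S', S' ⊆ S ∧ EvP G a F r o S') ∨
      (∃ x S', S' ⊆ S ∧ EvP G a F r x S' ∧ G.Adj x o ∧ o ∉ S' ∧ o ∉ F ∧ a o ≠ o) := by
  induction h with
  | nil =>
    rw [mem_singleton] at hoS
    subst hoS
    exact Or.inl ⟨{o}, Subset.rfl, EvP.nil⟩
  | @cons x y S hS hxy hyS hyF hy ih =>
    simp only [mem_insert] at hoS
    rcases hoS with rfl | rfl | hoS
    · right
      refine ⟨x, S, ?_, hS, hxy, hyS, hyF, hy⟩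
      intro u hu; simp [hu]
    · left
      exact ⟨_, Subset.rfl, EvP.cons hS hxy hyS hyF hy⟩
    · rcases ih hoS with ⟨S', h1, h2⟩ | ⟨x', S', h1, h2⟩
      · exact Or.inl ⟨S', fun u hu => by simp [h1 hu], h2⟩
      · exact Or.inr ⟨x', S', fun u hu => by simp [h1 hu], h2⟩

lemma W_lemma {E : Finset (Sym2 V)} {C : Finset V} {a b : V → V} {r x y : V} {S0 : Finset V}
    {W : Set V} (ha : Good G E C a r) (hb : Good G E C b r)
    (hWa : ∀ u ∈ W, a u ∈ W) (hWb : ∀ u ∈ W, b u ∈ W) (hWC : ∀ u ∈ W, u ∉ C)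
    (hmin : ∀ T : Set V, y ∈ T → (∀ u ∈ T, a u ∈ T) → (∀ u ∈ T, b u ∈ T) → W ⊆ T)
    (hS : EvP G a C r x S0) (hS0 : ∀ u ∈ S0, u ∉ W) (hxy : G.Adj x y) (hyS : y ∉ S0)
    (hyW : y ∈ W) : ∀ u ∈ W, u ∈ Rset G E C ∧ (¬ inD G u → inD G (b u)) := by
  have hyC : y ∉ C := hWC y hyW
  -- first direction
  have hay : a y ≠ y := hS.augment ha.max ha.mv hxy hyS
  have hev1 := EvP.cons hS hxy hyS hyC hay
  have hset1 : insert y (insert (a y) S0) = S0 ∪ {y, a y} := by
    ext u; simp only [mem_insert, mem_union, mem_singleton]; tauto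
  rw [hset1] at hev1
  have h0 : Trav G a b C r W {y} S0 {y, a y} (a y) := by
    refine ⟨by simp, ?_, hev1, ?_, ?_, ?_⟩
    · intro u hu
      simp only [mem_insert, mem_singleton] at hu
      rcases hu with rfl | rfl
      · exact hyW
      · exact hWa _ hyW
    · intro u hu
      simp only [mem_insert, mem_singleton] at hu ⊢
      rcases hu with rfl | rfl
      · exact Or.inr rfl
      · exact Or.inl (ha.max.1.inv _)
    · intro u hu h1 h2
      simp only [mem_insert, mem_singleton] at hu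
      rcases hu with rfl | rfl
      · exact absurd rfl h2
      · exact absurd rfl h1
    · intro u hu
      simp only [mem_insert, mem_singleton] at hu
      rcases hu with rfl | rfl
      · exact Or.inr ⟨hev1.end_inD ha.max ha.mv, Or.inl rfl⟩
      · exact Or.inl (hev1.end_inD ha.max ha.mv)
  obtain ⟨T1, z1, hT1, h1, h1'⟩ := Trav.run ha.max hb.max.1 ha.mv hWb hWa hWC hS0 _ _ _ le_rfl h0
  -- second direction
  set a' := hyb a b W with ha'
  set b' := hyb b a W with hb'
  have ha'max : IsMax G a' := hyb_max ha.max hb.max hWa hWb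
  have hb'inv : IsInv G b' := hyb_inv hb.max.1 ha.max.1 hWb hWa
  have hrW : r ∉ W := fun h => hWC r h ha.vC
  have ha'r : a' r = r := by rw [ha', hyb_out hrW]; exact ha.mv
  have hGa' : Good G E C a' r := by
    refine ⟨ha'max, ha.vC, ha'r, ?_⟩
    intro u hu hur
    have : u ∉ W := fun h => hWC u h hu
    rw [ha', hyb_out this]
    exact ha.mC u hu hur
  have hS' : EvP G a' C r x S0 := hS.transfer (fun u hu => by rw [ha', hyb_out (hS0 u hu)])
  have ha'y : a' y = b y := by rw [ha', hyb_in hyW]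
  have hWa' : ∀ u ∈ W, a' u ∈ W := fun u hu => by rw [ha', hyb_in hu]; exact hWb u hu
  have hWb' : ∀ u ∈ W, b' u ∈ W := fun u hu => by rw [hb', hyb_in hu]; exact hWa u hu
  have hay' : a' y ≠ y := hS'.augment ha'max ha'r hxy hyS
  have hev2 := EvP.cons hS' hxy hyS hyC hay'
  have hset2 : insert y (insert (a' y) S0) = S0 ∪ {y, a' y} := by
    ext u; simp only [mem_insert, mem_union, mem_singleton]; tauto
  rw [hset2] at hev2
  have h02 : Trav G a' b' C r W {y} S0 {y, a' y} (a' y) := by
    refine ⟨by simp, ?_, hev2, ?_, ?_, ?_⟩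
    · intro u hu
      simp only [mem_insert, mem_singleton] at hu
      rcases hu with rfl | rfl
      · exact hyW
      · exact hWa' _ hyW
    · intro u hu
      simp only [mem_insert, mem_singleton] at hu ⊢
      rcases hu with rfl | rfl
      · exact Or.inr rfl
      · exact Or.inl (ha'max.1.inv _)
    · intro u hu h1 h2
      simp only [mem_insert, mem_singleton] at hu
      rcases hu with rfl | rfl
      · exact absurd rfl h2
      · exact absurd rfl h1
    · intro u hu
      simp only [mem_insert, mem_singleton] at hu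
      rcases hu with rfl | rfl
      · exact Or.inr ⟨hev2.end_inD ha'max ha'r, Or.inl rfl⟩
      · exact Or.inl (hev2.end_inD ha'max ha'r)
  obtain ⟨T2, z2, hT2, h2, h2'⟩ := Trav.run ha'max hb'inv ha'r hWb' hWa' hWC hS0 _ _ _ le_rfl h02
  have hyT1 : y ∈ T1 := hT1 (by simp)
  have hyT2 : y ∈ T2 := hT2 (by simp)
  have hb1 : ∀ u ∈ T1, u ≠ y → b u ∈ T1 := by
    intro u hu huy
    by_cases huz : u = z1
    · rw [huz]
      rcases h1' with h | h
      · rw [h]; exact h1.zT
      · rw [Set.mem_singleton_iff] at h; rw [h]; exact hyT1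
    · exact (h1.Tb u hu huz huy).1
  have hb2 : ∀ u ∈ T2, u ≠ y → b' u ∈ T2 := by
    intro u hu huy
    by_cases huz : u = z2
    · rw [huz]
      rcases h2' with h | h
      · rw [h]; exact h2.zT
      · rw [Set.mem_singleton_iff] at h; rw [h]; exact hyT2
    · exact (h2.Tb u hu huz huy).1
  have hW : W ⊆ (T1 : Set V) ∪ (T2 : Set V) := by
    apply hmin
    · exact Or.inl (by exact_mod_cast hyT1)
    · rintro u (hu | hu)
      · left; exact_mod_cast h1.Ta u (by exact_mod_cast hu)
      · have hu' : u ∈ T2 := by exact_mod_cast hu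
        by_cases huy : u = y
        · left; rw [huy]; exact_mod_cast h1.Ta y hyT1
        · right
          have := hb2 u hu' huy
          rw [hb', hyb_in (h2.TW u hu')] at this
          exact_mod_cast this
    · rintro u (hu | hu)
      · have hu' : u ∈ T1 := by exact_mod_cast hu
        by_cases huy : u = y
        · right; rw [huy]
          have := h2.Ta y hyT2
          rw [ha'y] at this
          exact_mod_cast this
        · left; exact_mod_cast hb1 u hu' huy
      · right
        have hu' : u ∈ T2 := by exact_mod_cast hu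
        have := h2.Ta u hu'
        rw [ha', hyb_in (h2.TW u hu')] at this
        exact_mod_cast this
  intro u hu
  have hT2D : ∀ w ∈ T2, ¬ inD G w → inD G (b w) := by
    intro w hw hwD
    rcases h2.D w hw with h | h
    · exact absurd h hwD
    · have := h.1
      rwa [ha', hyb_in (h2.TW w hw)] at this
  rcases hW hu with hu1 | hu1
  · have hu' : u ∈ T1 := by exact_mod_cast hu1
    refine ⟨Or.inr ⟨a, r, z1, S0 ∪ T1, ha, h1.ev, by simp [hu']⟩, ?_⟩
    intro huD
    rcases h1.D u hu' with h | ⟨_, h | h⟩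
    · exact absurd h huD
    · rw [Set.mem_singleton_iff] at h
      rw [h] at huD ⊢
      exact hT2D y hyT2 huD
    · exact h
  · have hu' : u ∈ T2 := by exact_mod_cast hu1
    exact ⟨Or.inr ⟨a', r, z2, S0 ∪ T2, hGa', h2.ev, by simp [hu']⟩, hT2D u hu'⟩

/-- A fixed good matching maps the part of the reach set outside `D` into the part inside `D`,
off the cycle. -/
lemma lemA {E : Finset (Sym2 V)} {C : Finset V} {N : V → V} {b0 : V} (hN : Good G E C N b0)
    (hrot : ∀ m b v, Good G E C m b → v ∈ C → ∃ m', Good G E C m' v ∧ ∀ u, u ∉ C → m' u = m u)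
    {o : V} (ho : o ∈ Rset G E C) (hoD : ¬ inD G o) :
    N o ∈ Rset G E C ∧ inD G (N o) ∧ N o ∉ C := by
  have hoC : o ∉ C := by
    intro h
    obtain ⟨m', h1, -⟩ := hrot N b0 o hN h
    exact hoD ⟨m', h1.max, h1.mv⟩
  rcases ho with ho | ⟨a, v, z, S, ha, hS, hoS⟩
  · exact absurd ho hoC
  obtain ⟨b, hb, hbN⟩ := hrot N b0 v hN ha.vC
  set W : Set V := {u | Relation.ReflTransGen (fun p q => q = a p ∨ q = b p) o u} with hW
  have hWa : ∀ u ∈ W, a u ∈ W := fun u hu => Relation.ReflTransGen.tail hu (Or.inl rfl)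
  have hWb : ∀ u ∈ W, b u ∈ W := fun u hu => Relation.ReflTransGen.tail hu (Or.inr rfl)
  have hoW : o ∈ W := Relation.ReflTransGen.refl
  have hWC : ∀ u ∈ W, u ∉ C := by
    intro u hu
    induction hu with
    | refl => exact hoC
    | tail _ hpq ih =>
      rcases hpq with rfl | rfl
      · intro h
        have := ha.closed _ h
        rw [ha.max.1.inv] at this
        exact ih this
      · intro h
        have := hb.closed _ h
        rw [hb.max.1.inv] at this
        exact ih this
  have hsymm : ∀ p q, (q = a p ∨ q = b p) → (p = a q ∨ p = b q) := by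
    rintro p q (rfl | rfl)
    · left; exact (ha.max.1.inv _).symm
    · right; exact (hb.max.1.inv _).symm
  have hvW : v ∉ W := fun h => hWC v h ha.vC
  obtain ⟨x, y, S0, h1, h2, h3, h4, h5⟩ := hS.first_hit ha.max.1 hvW hWa ⟨o, hoS, hoW⟩
  have hmin : ∀ T : Set V, y ∈ T → (∀ u ∈ T, a u ∈ T) → (∀ u ∈ T, b u ∈ T) → W ⊆ T := by
    intro T hyT hTa hTb u hu
    have h6 : Relation.ReflTransGen (fun p q => q = a p ∨ q = b p) y o := by
      have h7 : Relation.ReflTransGen (Function.swap (fun p q => q = a p ∨ q = b p)) y o :=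
        Relation.ReflTransGen.swap _ _ h5
      exact Relation.ReflTransGen.mono (fun p q hpq => hsymm q p hpq) _ _ h7
    have h8 := h6.trans hu
    clear hu h6
    induction h8 with
    | refl => exact hyT
    | tail _ hpq ih =>
      rcases hpq with rfl | rfl
      · exact hTa _ ih
      · exact hTb _ ih
  have h9 := W_lemma ha hb hWa hWb hWC hmin h1 h2 h3 h4 h5
  have hbo : b o = N o := hbN o hoC
  rw [← hbo]
  exact ⟨(h9 (b o) (hWb o hoW)).1, (h9 o hoW).2 hoD, hWC _ (hWb o hoW)⟩

/-- Every permutation along edges preserves the reach set. -/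
lemma preserve {E : Finset (Sym2 V)} {C : Finset V} {N : V → V} {b0 : V} (hN : Good G E C N b0)
    (hrot : ∀ m b v, Good G E C m b → v ∈ C → ∃ m', Good G E C m' v ∧ ∀ u, u ∉ C → m' u = m u)
    (hRD : ∀ d x, d ∈ Rset G E C → inD G d → inD G x → G.Adj d x → d ∈ C ∧ x ∈ C)
    (σ : Equiv.Perm V) (hσ : ∀ v, G.Adj v (σ v)) : ∀ v, (v ∈ Rset G E C ↔ σ v ∈ Rset G E C) := by
  have hCD : ∀ u ∈ C, inD G u := by
    intro u hu
    obtain ⟨m', h1, -⟩ := hrot N b0 u hN hu
    exact ⟨m', h1.max, h1.mv⟩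
  set Ev : Finset V := univ.filter (fun x => x ∈ Rset G E C ∧ inD G x ∧ x ∉ C) with hEv
  set Od : Finset V := univ.filter (fun x => x ∈ Rset G E C ∧ ¬ inD G x) with hOd
  have mEv : ∀ x, x ∈ Ev ↔ (x ∈ Rset G E C ∧ inD G x ∧ x ∉ C) := by simp [hEv]
  have mOd : ∀ x, x ∈ Od ↔ (x ∈ Rset G E C ∧ ¬ inD G x) := by simp [hOd]
  -- neighbours of `Ev`
  have hnb : ∀ x ∈ Ev, ∀ y, G.Adj x y → y ∈ Od := by
    intro x hx y hxy
    rw [mEv] at hx
    obtain ⟨hxR, hxD, hxC⟩ := hx
    have hyD : ¬ inD G y := fun h => hxC (hRD x y hxR hxD h hxy).1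
    rw [mOd]
    refine ⟨?_, hyD⟩
    have hyC : y ∉ C := fun h => hyD (hCD y h)
    rcases hxR with h | ⟨m, v, z, S, hm, hS, hxS⟩
    · exact absurd h hxC
    rcases hS.position hm.max.1 hm.mv hxS with ⟨S', h1, h2⟩ | ⟨w, S', h1, h2, h3, h4, h5, h6⟩
    · by_cases hyS' : y ∈ S'
      · exact Or.inr ⟨m, v, x, S', hm, h2, hyS'⟩
      · have h7 : m y ≠ y := fun h => hyD ⟨m, hm.max, h⟩
        exact Or.inr ⟨m, v, m y, _, hm, EvP.cons h2 hxy hyS' hyC h7, by simp⟩
    · exfalso
      have hwD : inD G w := h2.end_inD hm.max hm.mv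
      have hwR : w ∈ Rset G E C := Or.inr ⟨m, v, w, S', hm, h2, h2.end_mem⟩
      exact hxC (hRD w x hwR hwD hxD h3).2
  -- neighbours of `C`
  have hnc : ∀ x ∈ C, ∀ y, G.Adj x y → y ∈ C ∨ y ∈ Od := by
    intro x hx y hxy
    by_cases hyC : y ∈ C
    · exact Or.inl hyC
    right
    have hyD : ¬ inD G y := fun h => hyC (hRD x y (Or.inl hx) (hCD x hx) h hxy).2
    rw [mOd]
    refine ⟨?_, hyD⟩
    obtain ⟨m, hm, -⟩ := hrot N b0 x hN hx
    have h7 : m y ≠ y := fun h => hyD ⟨m, hm.max, h⟩
    refine Or.inr ⟨m, x, m y, _, hm, EvP.cons EvP.nil hxy ?_ hyC h7, by simp⟩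
    rw [mem_singleton]; exact hxy.ne'
  -- counting
  have hcard : Od.card ≤ Ev.card := by
    refine card_le_card_of_injOn N ?_ ?_
    · intro o ho
      have ho' : o ∈ Od := by exact_mod_cast ho
      rw [mOd] at ho'
      have := lemA hN hrot ho'.1 ho'.2
      have h8 : N o ∈ Ev := (mEv _).2 this
      exact_mod_cast h8
    · intro u _ v _ h
      exact IsMax.inj hN.max.1 h
  have key : ∀ τ : Equiv.Perm V, (∀ v, G.Adj v (τ v)) → Ev.image τ = Od := by
    intro τ hτ
    refine eq_of_subset_of_card_le ?_ ?_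
    · intro y hy
      rw [mem_image] at hy
      obtain ⟨x, hx, rfl⟩ := hy
      exact hnb x hx _ (hτ x)
    · rw [card_image_of_injective _ τ.injective]; exact hcard
  have h1 := key σ hσ
  have h2 := key σ.symm (fun v => by have := hσ (σ.symm v); rw [Equiv.apply_symm_apply] at this; exact this.symm)
  have hE : ∀ x ∈ Ev, σ x ∈ Od := fun x hx => h1 ▸ mem_image_of_mem _ hx
  have hO : ∀ x ∈ Od, σ x ∈ Ev := by
    intro x hx
    rw [← h2, mem_image] at hx
    obtain ⟨y, hy, rfl⟩ := hx
    rwa [Equiv.apply_symm_apply]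
  have hC : ∀ x ∈ C, σ x ∈ C := by
    intro x hx
    rcases hnc x hx _ (hσ x) with h | h
    · exact h
    · exfalso
      rw [← h1, mem_image] at h
      obtain ⟨y, hy, hxy⟩ := h
      rw [mEv] at hy
      exact hy.2.2 ((σ.injective hxy) ▸ hx)
  have hfwd : ∀ v, v ∈ Rset G E C → σ v ∈ Rset G E C := by
    intro v hv
    by_cases hvC : v ∈ C
    · exact Or.inl (hC v hvC)
    by_cases hvD : inD G v
    · exact ((mOd _).1 (hE v ((mEv _).2 ⟨hv, hvD, hvC⟩))).1
    · exact ((mEv _).1 (hO v ((mOd _).2 ⟨hv, hvD⟩))).1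
  intro v
  refine ⟨hfwd v, fun hv => ?_⟩
  -- bijectivity on a finite set
  set R : Finset V := univ.filter (fun x => x ∈ Rset G E C) with hR
  have h3 : R.image σ = R := by
    refine eq_of_subset_of_card_le ?_ ?_
    · intro y hy
      rw [mem_image] at hy
      obtain ⟨x, hx, rfl⟩ := hy
      simp only [hR, mem_filter, mem_univ, true_and] at hx ⊢
      exact hfwd x hx
    · rw [card_image_of_injective _ σ.injective]
  have h4 : σ v ∈ R.image σ := by rw [h3]; simp [hR, hv]
  rw [mem_image] at h4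
  obtain ⟨w, hw, hwv⟩ := h4
  have : w = v := σ.injective hwv
  subst this
  simpa [hR] using hw

end Pool.Agent.U273.FlowerDet
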